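import Mathlib

/-!
Divisors on finite loopless multigraphs: linear equivalence, Baker-Norine rank, gonality sequence.
-/

set_option autoImplicit false

namespace Pool.Agent.Lib.MP_d208ff_co

open Finset

/-- A multigraph without loops on the vertex set `V`: `mult u v` is the number of edges joining
`u` and `v`. -/
structure Multigraph (V : Type) where
  /-- number of edges joining two vertices -/
  mult : V → V → ℕ
  symm : ∀ u v, mult u v = mult v u
  loopless : ∀ v, mult v v = 0

/-- The degree of a divisor. -/
def deg {V : Type} [Fintype V] (D : V → ℤ) : ℤ := ∑ v, D v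

/-- A divisor is effective if all its coefficients are nonnegative. -/
def Effective {V : Type} (D : V → ℤ) : Prop := ∀ v, 0 ≤ D v

namespace Multigraph

variable {V : Type} [Fintype V] (G : Multigraph V)

/-- Any two vertices are joined by a walk along edges, and there is at least one vertex. -/
def Connected {V : Type} (G : Multigraph V) : Prop :=
  Nonempty V ∧ ∀ u v : V, Relation.ReflTransGen (fun a b => G.mult a b ≠ 0) u v

/-- The number of edges: half of the sum of all valences. -/
def numEdges : ℕ := (∑ u, ∑ v, G.mult u v) / 2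

/-- The genus `|E| - |V| + 1`. -/
def genus : ℤ := (G.numEdges : ℤ) - (Fintype.card V : ℤ) + 1

/-- The graph Laplacian. -/
def laplacian (f : V → ℤ) : V → ℤ := fun v => ∑ w, (G.mult v w : ℤ) * (f v - f w)

/-- Linear equivalence of divisors: the difference lies in the image of the Laplacian. -/
def LinEquiv (D D' : V → ℤ) : Prop := ∃ f : V → ℤ, D - D' = G.laplacian f

/-- `D` is equivalent to an effective divisor. -/
def EquivEffective (D : V → ℤ) : Prop := ∃ D' : V → ℤ, Effective D' ∧ G.LinEquiv D D'

open Classical in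
/-- The Baker-Norine rank: `-1` if `D` is not equivalent to an effective divisor, and otherwise
the largest `r ≥ 0` such that `D - E` is equivalent to an effective divisor for every effective
`E` of degree `r`. -/
noncomputable def rank (D : V → ℤ) : ℤ :=
  if G.EquivEffective D then
    ((sSup {r : ℕ | ∀ E : V → ℤ, Effective E → deg E = r → G.EquivEffective (D - E)} : ℕ) : ℤ)
  else -1

/-- The `r`-th gonality: the minimum degree of a divisor of rank at least `r`. -/
noncomputable def gon (r : ℕ) : ℕ :=
  sInf {d : ℕ | ∃ D : V → ℤ, deg D = d ∧ (r : ℤ) ≤ G.rank D}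

/-- A gonality-tight graph: `gon_2 = gon_1 + 1`. -/
def GonalityTight : Prop := G.gon 2 = G.gon 1 + 1

/-! ### Basic facts -/

/-- rank at least `r`, unfolded -/
def RankAtLeast (D : V → ℤ) (r : ℕ) : Prop :=
  ∀ E : V → ℤ, Effective E → deg E = r → G.EquivEffective (D - E)

lemma deg_add (D D' : V → ℤ) : deg (D + D') = deg D + deg D' := by
  simp [deg, Finset.sum_add_distrib]

lemma deg_sub (D D' : V → ℤ) : deg (D - D') = deg D - deg D' := by
  simp [deg, Finset.sum_sub_distrib]

lemma sum_mul_laplacian {R : Type} [CommRing R] (φ : V → R) (f : V → ℤ) :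
    ∑ v, φ v * (G.laplacian f v : R)
      = ∑ w, (f w : R) * ∑ v, (G.mult w v : R) * (φ w - φ v) := by
  have h1 : ∑ v, φ v * (G.laplacian f v : R)
      = ∑ v, ∑ w, (G.mult v w : R) * (φ v * (f v : R)) - ∑ v, ∑ w, (G.mult v w : R) * (φ v * (f w : R)) := by
    rw [← Finset.sum_sub_distrib]
    apply Finset.sum_congr rfl
    intro v _
    rw [← Finset.sum_sub_distrib]
    unfold laplacian
    push_cast
    rw [Finset.mul_sum]
    apply Finset.sum_congr rfl
    intro w _
    ring
  have h2 : ∑ w, (f w : R) * ∑ v, (G.mult w v : R) * (φ w - φ v)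
      = ∑ w, ∑ v, (G.mult w v : R) * (φ w * (f w : R)) - ∑ w, ∑ v, (G.mult w v : R) * (φ v * (f w : R)) := by
    rw [← Finset.sum_sub_distrib]
    apply Finset.sum_congr rfl
    intro v _
    rw [← Finset.sum_sub_distrib, Finset.mul_sum]
    apply Finset.sum_congr rfl
    intro w _
    ring
  rw [h1, h2]
  congr 1
  rw [Finset.sum_comm]
  apply Finset.sum_congr rfl
  intro v _
  apply Finset.sum_congr rfl
  intro w _
  rw [G.symm w v]

lemma deg_laplacian (f : V → ℤ) : deg (G.laplacian f) = 0 := by
  have h := G.sum_mul_laplacian (R := ℤ) (fun _ => 1) f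
  simp only [one_mul, sub_self, mul_zero, Finset.sum_const_zero] at h
  unfold deg
  simpa using h

lemma LinEquiv.deg_eq {G : Multigraph V} {D D' : V → ℤ} (h : G.LinEquiv D D') : deg D = deg D' := by
  obtain ⟨f, hf⟩ := h
  have h1 := G.deg_laplacian f
  rw [← hf, deg_sub] at h1
  linarith

lemma laplacian_add (f g : V → ℤ) : G.laplacian (f + g) = G.laplacian f + G.laplacian g := by
  funext v
  simp only [laplacian, Pi.add_apply, ← Finset.sum_add_distrib]
  apply Finset.sum_congr rfl
  intro w _
  ring

lemma laplacian_smul (c : ℤ) (f : V → ℤ) : G.laplacian (c • f) = c • G.laplacian f := by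
  funext v
  simp only [laplacian, Pi.smul_apply, smul_eq_mul, Finset.mul_sum]
  apply Finset.sum_congr rfl
  intro w _
  ring

lemma laplacian_sum {ι : Type} (s : Finset ι) (f : ι → V → ℤ) :
    G.laplacian (∑ i ∈ s, f i) = ∑ i ∈ s, G.laplacian (f i) := by
  classical
  induction s using Finset.induction_on with
  | empty =>
    simp only [Finset.sum_empty]
    funext v
    simp [laplacian]
  | insert a s ha ih => rw [Finset.sum_insert ha, Finset.sum_insert ha, laplacian_add, ih]

section rank
variable [DecidableEq V]

/-- the divisor of one chip at `v` -/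
def chip (v : V) : V → ℤ := Pi.single v 1

lemma deg_chip (v : V) : deg (chip v) = 1 := by
  simp [deg, chip]

lemma effective_chip (v : V) : Effective (chip v) := by
  intro w
  unfold chip
  by_cases h : w = v
  · subst h; simp
  · simp [Pi.single_apply, h]

omit [DecidableEq V] in
lemma effective_deg_nonneg {D : V → ℤ} (h : Effective D) : 0 ≤ deg D :=
  Finset.sum_nonneg fun v _ => h v

lemma exists_chip {D : V → ℤ} (h : Effective D) (h1 : 0 < deg D) :
    ∃ v, Effective (D - chip v) := by
  have h2 : ∃ v, 0 < D v := by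
    by_contra hcon
    push Not at hcon
    have : deg D ≤ 0 := Finset.sum_nonpos fun v _ => hcon v
    omega
  obtain ⟨v, hv⟩ := h2
  refine ⟨v, ?_⟩
  intro w
  simp only [Pi.sub_apply, chip]
  by_cases hw : w = v
  · subst hw; simp; omega
  · simp [Pi.single_apply, hw, h w]

lemma effective_add {D D' : V → ℤ} (h : Effective D) (h' : Effective D') :
    Effective (D + D') := fun v => add_nonneg (h v) (h' v)

lemma RankAtLeast.pred {G : Multigraph V} [Nonempty V] {D : V → ℤ} {r : ℕ}
    (h : G.RankAtLeast D (r + 1)) : G.RankAtLeast D r := by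
  intro E hE hd
  obtain ⟨v⟩ := (inferInstance : Nonempty V)
  obtain ⟨D', hD', f, hf⟩ := h (E + chip v) (effective_add hE (effective_chip v))
    (by rw [deg_add, deg_chip, hd]; push_cast; ring)
  refine ⟨D' + chip v, effective_add hD' (effective_chip v), f, ?_⟩
  rw [← hf]
  abel

lemma RankAtLeast.le {G : Multigraph V} [Nonempty V] {D : V → ℤ} {r s : ℕ} (hrs : r ≤ s)
    (h : G.RankAtLeast D s) : G.RankAtLeast D r := by
  induction s with
  | zero =>
    have : r = 0 := by omega
    rw [this]; exact h
  | succ s ih =>
    rcases Nat.lt_or_ge s r with h1 | h1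
    · have : r = s + 1 := by omega
      rw [this]; exact h
    · exact ih h1 h.pred

lemma RankAtLeast.le_deg {G : Multigraph V} [Nonempty V] {D : V → ℤ} {r : ℕ}
    (h : G.RankAtLeast D r) : (r : ℤ) ≤ deg D := by
  obtain ⟨v⟩ := (inferInstance : Nonempty V)
  have hE : Effective ((r : ℤ) • chip v) := by
    intro w
    have := effective_chip v w
    simp only [Pi.smul_apply, smul_eq_mul]
    positivity
  have hd : deg ((r : ℤ) • chip v) = r := by
    have h2 := deg_chip v
    simp only [deg, Pi.smul_apply, smul_eq_mul, ← Finset.mul_sum] at h2 ⊢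
    rw [h2, mul_one]
  obtain ⟨D', hD', hl⟩ := h _ hE hd
  have h1 := hl.deg_eq
  have h2 := effective_deg_nonneg hD'
  rw [deg_sub, hd] at h1
  linarith

lemma rankAtLeast_zero {D : V → ℤ} : G.RankAtLeast D 0 ↔ G.EquivEffective D := by
  constructor
  · intro h
    have := h 0 (fun v => le_refl _) (by simp [deg])
    simpa using this
  · intro h E hE hd
    have hE0 : E = 0 := by
      funext v
      have h1 : ∑ v, E v = 0 := by simpa [deg] using hd
      exact (Finset.sum_eq_zero_iff_of_nonneg (fun v _ => hE v)).mp h1 v (Finset.mem_univ v)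
    rw [hE0, sub_zero]
    exact h

/-- the rank is at least `r` iff removing any `r` chips leaves something equivalent to an
effective divisor -/
lemma le_rank_iff [Nonempty V] (D : V → ℤ) (r : ℕ) :
    (r : ℤ) ≤ G.rank D ↔ G.RankAtLeast D r := by
  classical
  unfold rank
  set S : Set ℕ := {r : ℕ | ∀ E : V → ℤ, Effective E → deg E = r → G.EquivEffective (D - E)} with hS
  have hmem : ∀ s, s ∈ S ↔ G.RankAtLeast D s := fun s => Iff.rfl
  have hbdd : BddAbove S := by
    refine ⟨(deg D).toNat, ?_⟩
    intro s hs
    have := ((hmem s).mp hs).le_deg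
    omega
  split_ifs with h
  · have hne : S.Nonempty := ⟨0, (hmem 0).mpr (G.rankAtLeast_zero.mpr h)⟩
    rw [Nat.cast_le]
    constructor
    · intro hr
      exact ((hmem _).mp (Nat.sSup_mem hne hbdd)).le hr
    · intro hr
      exact le_csSup hbdd ((hmem r).mpr hr)
  · constructor
    · intro hr
      exfalso
      omega
    · intro hr
      exact absurd (G.rankAtLeast_zero.mp (hr.le (Nat.zero_le r))) h

lemma gon_eq [Nonempty V] (r d : ℕ) (D : V → ℤ) (hd : deg D = d) (hD : G.RankAtLeast D r)
    (hmin : ∀ d' < d, ∀ D' : V → ℤ, deg D' = d' → ¬ G.RankAtLeast D' r) : G.gon r = d := by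
  unfold gon
  apply le_antisymm
  · exact Nat.sInf_le ⟨D, hd, (G.le_rank_iff D r).mpr hD⟩
  · apply le_csInf
    · exact ⟨d, D, hd, (G.le_rank_iff D r).mpr hD⟩
    · rintro d' ⟨D', h1, h2⟩
      by_contra hcon
      exact hmin d' (by omega) D' h1 ((G.le_rank_iff D' r).mp h2)

end rank

end Multigraph

end Pool.Agent.Lib.MP_d208ff_co
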