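import Mathlib
import Pool.Agent.Lib.MP_d208ff_co.Defs

/-!
Deciding Baker-Norine ranks by bit masks, for graphs whose Jacobian is cyclic of order `N`
and comes with an explicit isomorphism to `ZMod N`.
-/

set_option autoImplicit false

namespace Pool.Agent.Lib.MP_d208ff_co

open Finset Multigraph

/-! ### cyclic rotation of `N`-bit masks -/

/-- rotate an `N`-bit mask by `s` -/
def rot (N x s : ℕ) : ℕ := ((x <<< s) ||| (x >>> (N - s))) % 2 ^ N

lemma rot_lt (N x s : ℕ) : rot N x s < 2 ^ N := Nat.mod_lt _ (by positivity)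

lemma testBit_rot (N x s i : ℕ) (hx : x < 2 ^ N) (hs : s ≤ N) (hi : i < N) :
    (rot N x s).testBit i = x.testBit ((i + (N - s)) % N) := by
  unfold rot
  rw [Nat.testBit_mod_two_pow, Nat.testBit_or, Nat.testBit_shiftLeft, Nat.testBit_shiftRight]
  simp only [hi, decide_true, Bool.true_and]
  by_cases h : s ≤ i
  · have h1 : (i + (N - s)) % N = i - s := by
      have : i + (N - s) = (i - s) + N := by omega
      rw [this, Nat.add_mod_right]
      exact Nat.mod_eq_of_lt (by omega)
    have h2 : x.testBit (N - s + i) = false := by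
      apply Nat.testBit_lt_two_pow
      exact lt_of_lt_of_le hx (Nat.pow_le_pow_right (by norm_num) (by omega))
    rw [h1, h2]
    simp [h]
  · have h1 : (i + (N - s)) % N = N - s + i := by
      rw [Nat.mod_eq_of_lt (by omega)]
      omega
    rw [h1]
    simp [h]

/-- union of rotations -/
def orAll (N x : ℕ) : List ℕ → ℕ
  | [] => 0
  | s :: l => rot N x s ||| orAll N x l

/-- intersection of rotations -/
def andAll (N x : ℕ) : List ℕ → ℕ
  | [] => 2 ^ N - 1
  | s :: l => rot N x s &&& andAll N x l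

lemma orAll_lt (N x : ℕ) (l : List ℕ) : orAll N x l < 2 ^ N := by
  induction l with
  | nil => simp [orAll]
  | cons s l ih => exact Nat.or_lt_two_pow (rot_lt N x s) ih

lemma andAll_lt (N x : ℕ) (l : List ℕ) : andAll N x l < 2 ^ N := by
  induction l with
  | nil =>
    have : 0 < 2 ^ N := by positivity
    simp only [andAll]; omega
  | cons s l ih => exact Nat.and_lt_two_pow _ ih

lemma testBit_orAll (N x : ℕ) (l : List ℕ) (i : ℕ) :
    (orAll N x l).testBit i = true ↔ ∃ s ∈ l, (rot N x s).testBit i = true := by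
  induction l with
  | nil => simp [orAll]
  | cons s l ih => simp [orAll, Nat.testBit_or, ih]

lemma testBit_andAll (N x : ℕ) (l : List ℕ) (i : ℕ) (hi : i < N) :
    (andAll N x l).testBit i = true ↔ ∀ s ∈ l, (rot N x s).testBit i = true := by
  induction l with
  | nil => simp [andAll, Nat.testBit_two_pow_sub_one, hi]
  | cons s l ih => simp [andAll, Nat.testBit_and, ih]

/-- classes of effective divisors of degree `d` -/
def effMask (N : ℕ) (l : List ℕ) : ℕ → ℕ
  | 0 => 1
  | d + 1 => orAll N (effMask N l d) l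

/-- classes of degree `d + r` of rank at least `r` -/
def rankMask (N : ℕ) (l : List ℕ) (d : ℕ) : ℕ → ℕ
  | 0 => effMask N l d
  | r + 1 => andAll N (rankMask N l d r) l

lemma effMask_lt (N : ℕ) (hN : 0 < N) (l : List ℕ) (d : ℕ) : effMask N l d < 2 ^ N := by
  cases d with
  | zero => simp only [effMask]; exact Nat.one_lt_two_pow hN.ne'
  | succ d => exact orAll_lt _ _ _

lemma rankMask_lt (N : ℕ) (hN : 0 < N) (l : List ℕ) (d r : ℕ) : rankMask N l d r < 2 ^ N := by
  cases r with
  | zero => exact effMask_lt N hN l d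
  | succ r => exact andAll_lt _ _ _

/-! ### connection with divisors -/

/-- membership of a residue in a mask -/
def Mem (N x : ℕ) (a : ZMod N) : Prop := x.testBit a.val = true

lemma mem_rot (N : ℕ) (hN : 0 < N) (x s : ℕ) (hx : x < 2 ^ N) (hs : s ≤ N) (a : ZMod N) :
    Mem N (rot N x s) a ↔ Mem N x (a - (s : ZMod N)) := by
  have : NeZero N := ⟨hN.ne'⟩
  unfold Mem
  rw [testBit_rot N x s a.val hx hs (ZMod.val_lt a)]
  have h : (a - (s : ZMod N)).val = (a.val + (N - s)) % N := by
    have h1 : a - (s : ZMod N) = ((a.val + (N - s) : ℕ) : ZMod N) := by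
      rw [Nat.cast_add, Nat.cast_sub hs, ZMod.natCast_self, ZMod.natCast_zmod_val]
      ring
    rw [h1, ZMod.val_natCast]
  rw [h]

section
variable {V : Type} [Fintype V] [DecidableEq V] (G : Multigraph V) (N : ℕ) (φ : V → ℕ)

/-- the class of a divisor -/
def cls (D : V → ℤ) : ZMod N := ∑ v, (φ v : ZMod N) * (D v : ZMod N)

/-- certificate that `φ` induces an isomorphism from degree-zero classes to `ZMod N` -/
structure Cert (q u : V) (s : V → V → ℤ) (t : V → ℤ) : Prop where
  pos : 0 < N
  bound : ∀ v, φ v ≤ N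
  hom : ∀ w, (N : ℤ) ∣ ∑ v, (G.mult w v : ℤ) * ((φ w : ℤ) - φ v)
  q0 : φ q = 0
  u1 : φ u = 1
  qu : q ≠ u
  gen : ∀ v w, (chip v - (chip q : V → ℤ) - (φ v : ℤ) • (chip u - chip q)) w = G.laplacian (s v) w
  tor : ∀ w, ((N : ℤ) • (chip u - (chip q : V → ℤ))) w = G.laplacian t w

variable {G N φ}
variable {q u : V} {s : V → V → ℤ} {t : V → ℤ}

omit [DecidableEq V] in
lemma cls_add (D D' : V → ℤ) : cls N φ (D + D') = cls N φ D + cls N φ D' := by
  simp only [cls, Pi.add_apply, Int.cast_add, mul_add, Finset.sum_add_distrib]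

omit [DecidableEq V] in
lemma cls_sub (D D' : V → ℤ) : cls N φ (D - D') = cls N φ D - cls N φ D' := by
  simp only [cls, Pi.sub_apply, Int.cast_sub, mul_sub, Finset.sum_sub_distrib]

omit [DecidableEq V] in
lemma cls_smul (c : ℤ) (D : V → ℤ) : cls N φ (c • D) = (c : ZMod N) * cls N φ D := by
  simp only [cls, Pi.smul_apply, smul_eq_mul, Int.cast_mul, Finset.mul_sum]
  apply Finset.sum_congr rfl
  intro v _
  ring

lemma cls_chip (v : V) : cls N φ (chip v) = (φ v : ZMod N) := by
  unfold cls chip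
  rw [Finset.sum_eq_single v]
  · simp
  · intro w _ hw
    simp [hw]
  · simp

lemma Cert.cls_laplacian (c : Cert G N φ q u s t) (f : V → ℤ) :
    cls N φ (G.laplacian f) = 0 := by
  unfold cls
  rw [G.sum_mul_laplacian (R := ZMod N) (fun v => (φ v : ZMod N)) f]
  apply Finset.sum_eq_zero
  intro w _
  have h := c.hom w
  have h2 : ((∑ v, (G.mult w v : ℤ) * ((φ w : ℤ) - φ v) : ℤ) : ZMod N) = 0 :=
    (ZMod.intCast_zmod_eq_zero_iff_dvd _ N).mpr h
  push_cast at h2
  rw [h2, mul_zero]

lemma Cert.linEquiv_iff (c : Cert G N φ q u s t) (D D' : V → ℤ) :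
    G.LinEquiv D D' ↔ deg D = deg D' ∧ cls N φ D = cls N φ D' := by
  constructor
  · intro h
    refine ⟨h.deg_eq, ?_⟩
    obtain ⟨f, hf⟩ := h
    have h1 := c.cls_laplacian f
    rw [← hf, cls_sub] at h1
    exact sub_eq_zero.mp h1
  · rintro ⟨h1, h2⟩
    -- E = D - D' has degree 0 and class 0
    set E := D - D' with hE
    have hdeg : deg E = 0 := by rw [hE, deg_sub, h1, sub_self]
    have hcls : cls N φ E = 0 := by rw [hE, cls_sub, h2, sub_self]
    have hdvd : (N : ℤ) ∣ ∑ v, (φ v : ℤ) * E v := by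
      apply (ZMod.intCast_zmod_eq_zero_iff_dvd _ N).mp
      push_cast
      exact hcls
    obtain ⟨m, hm⟩ := hdvd
    -- E = Σ E v (chip v - chip q)
    have hE1 : E = ∑ v, E v • (chip v - (chip q : V → ℤ)) := by
      have e1 : ∑ v, E v • (chip v : V → ℤ) = E := by
        funext w
        rw [Finset.sum_apply, Finset.sum_eq_single w]
        · simp [chip]
        · intro v _ hv
          simp [chip, hv.symm]
        · simp
      simp only [smul_sub, Finset.sum_sub_distrib]
      rw [e1, ← Finset.sum_smul]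
      have : ∑ v, E v = 0 := hdeg
      rw [this, zero_smul, sub_zero]
    have hgen : ∀ v, (chip v - (chip q : V → ℤ)) = (φ v : ℤ) • (chip u - chip q) + G.laplacian (s v) := by
      intro v
      have : (chip v - (chip q : V → ℤ) - (φ v : ℤ) • (chip u - chip q)) = G.laplacian (s v) :=
        funext (c.gen v)
      rw [← this]; abel
    have htor : (N : ℤ) • (chip u - (chip q : V → ℤ)) = G.laplacian t := funext c.tor
    refine ⟨m • t + ∑ v, E v • s v, ?_⟩
    rw [laplacian_add, laplacian_sum, laplacian_smul, ← htor]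
    simp only [laplacian_smul]
    have hE2 : ∑ v, E v • (chip v - (chip q : V → ℤ))
        = ∑ v, ((E v * (φ v : ℤ)) • (chip u - (chip q : V → ℤ)) + E v • G.laplacian (s v)) := by
      apply Finset.sum_congr rfl
      intro v _
      rw [hgen v, smul_add, smul_smul]
    have hE3 := hE1.trans hE2
    rw [Finset.sum_add_distrib, ← Finset.sum_smul] at hE3
    refine hE3.trans ?_
    congr 1
    rw [smul_smul]
    congr 1
    rw [mul_comm m, ← hm]
    apply Finset.sum_congr rfl
    intro v _
    ring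

variable (l : List ℕ)

lemma Cert.mem_eff (c : Cert G N φ q u s t) (hl : ∀ x, x ∈ l ↔ ∃ v, φ v = x) (d : ℕ) :
    ∀ a : ZMod N, Mem N (effMask N l d) a ↔
      ∃ E : V → ℤ, Effective E ∧ deg E = d ∧ cls N φ E = a := by
  have : NeZero N := ⟨c.pos.ne'⟩
  induction d with
  | zero =>
    intro a
    constructor
    · intro h
      refine ⟨0, fun v => le_refl _, by simp [deg], ?_⟩
      have h1 : a.val = 0 := by
        unfold Mem effMask at h
        by_contra hne
        have := Nat.testBit_lt_two_pow (x := 1) (i := a.val) (Nat.one_lt_two_pow hne)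
        rw [this] at h
        exact absurd h (by simp)
      have h2 : a = 0 := (ZMod.val_eq_zero a).mp h1
      rw [h2]; simp [cls]
    · rintro ⟨E, hE, hd, hc⟩
      have hE0 : E = 0 := by
        funext v
        have h1 : ∑ v, E v = 0 := by simpa [deg] using hd
        exact (Finset.sum_eq_zero_iff_of_nonneg (fun v _ => hE v)).mp h1 v (Finset.mem_univ v)
      have ha : a = 0 := by rw [← hc, hE0]; simp [cls]
      rw [ha]
      simp [Mem, effMask]
  | succ d ih =>
    intro a
    have h1 : Mem N (effMask N l (d + 1)) a ↔ ∃ v, Mem N (effMask N l d) (a - (φ v : ZMod N)) := by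
      have h2 : Mem N (effMask N l (d + 1)) a ↔
          ∃ x ∈ l, Mem N (rot N (effMask N l d) x) a := by
        unfold Mem
        exact testBit_orAll N _ l a.val
      rw [h2]
      constructor
      · rintro ⟨x, hx, hm⟩
        obtain ⟨v, rfl⟩ := (hl x).mp hx
        exact ⟨v, (mem_rot N c.pos _ _ (effMask_lt N c.pos l d) (c.bound v) a).mp hm⟩
      · rintro ⟨v, hm⟩
        exact ⟨φ v, (hl _).mpr ⟨v, rfl⟩,
          (mem_rot N c.pos _ _ (effMask_lt N c.pos l d) (c.bound v) a).mpr hm⟩
    rw [h1]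
    constructor
    · rintro ⟨v, hv⟩
      obtain ⟨E, hE, hd, hc⟩ := (ih _).mp hv
      refine ⟨E + chip v, effective_add hE (effective_chip v), ?_, ?_⟩
      · rw [deg_add, deg_chip, hd]; push_cast; ring
      · rw [cls_add, cls_chip, hc]; ring
    · rintro ⟨E, hE, hd, hc⟩
      obtain ⟨v, hv⟩ := exists_chip hE (by rw [hd]; push_cast; omega)
      refine ⟨v, (ih _).mpr ⟨E - chip v, hv, ?_, ?_⟩⟩
      · rw [deg_sub, deg_chip, hd]; push_cast; ring
      · rw [cls_sub, cls_chip, hc]

lemma rankAtLeast_succ_iff (D : V → ℤ) (r : ℕ) :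
    G.RankAtLeast D (r + 1) ↔ ∀ v, G.RankAtLeast (D - chip v) r := by
  constructor
  · intro h v E hE hd
    have := h (E + chip v) (effective_add hE (effective_chip v))
      (by rw [deg_add, deg_chip, hd]; push_cast; ring)
    have e : D - chip v - E = D - (E + chip v) := by abel
    rw [e]; exact this
  · intro h E hE hd
    obtain ⟨v, hv⟩ := exists_chip hE (by rw [hd]; push_cast; omega)
    have := h v (E - chip v) hv (by rw [deg_sub, deg_chip, hd]; push_cast; ring)
    have e : D - E = D - chip v - (E - chip v) := by abel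
    rw [e]; exact this

lemma Cert.mem_rank (c : Cert G N φ q u s t) (hl : ∀ x, x ∈ l ↔ ∃ v, φ v = x) (d r : ℕ) :
    ∀ D : V → ℤ, deg D = d + r → (G.RankAtLeast D r ↔ Mem N (rankMask N l d r) (cls N φ D)) := by
  have : NeZero N := ⟨c.pos.ne'⟩
  induction r with
  | zero =>
    intro D hd
    rw [rankAtLeast_zero]
    have h1 : Mem N (rankMask N l d 0) (cls N φ D) ↔
      ∃ E : V → ℤ, Effective E ∧ deg E = d ∧ cls N φ E = cls N φ D := c.mem_eff l hl d _
    rw [h1]
    unfold EquivEffective
    constructor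
    · rintro ⟨E, hE, hlin⟩
      have := (c.linEquiv_iff D E).mp hlin
      exact ⟨E, hE, by rw [← this.1, hd]; simp, this.2.symm⟩
    · rintro ⟨E, hE, hdE, hcE⟩
      exact ⟨E, hE, (c.linEquiv_iff D E).mpr ⟨by rw [hd, hdE]; simp, hcE.symm⟩⟩
  | succ r ih =>
    intro D hd
    rw [rankAtLeast_succ_iff]
    have h2 : Mem N (rankMask N l d (r + 1)) (cls N φ D) ↔
        ∀ x ∈ l, Mem N (rot N (rankMask N l d r) x) (cls N φ D) := by
      unfold Mem
      exact testBit_andAll N _ l _ (ZMod.val_lt _)
    rw [h2]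
    have h3 : ∀ v, deg (D - chip v) = d + r := by
      intro v
      rw [deg_sub, deg_chip, hd]; push_cast; ring
    constructor
    · intro h x hx
      obtain ⟨v, rfl⟩ := (hl x).mp hx
      rw [mem_rot N c.pos _ _ (rankMask_lt N c.pos l d r) (c.bound v)]
      have := (ih _ (h3 v)).mp (h v)
      rwa [cls_sub, cls_chip] at this
    · intro h v
      have := h (φ v) ((hl _).mpr ⟨v, rfl⟩)
      rw [mem_rot N c.pos _ _ (rankMask_lt N c.pos l d r) (c.bound v)] at this
      apply (ih _ (h3 v)).mpr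
      rwa [cls_sub, cls_chip]

/-- every class is represented in every degree -/
lemma Cert.exists_divisor (c : Cert G N φ q u s t) (a : ZMod N) (d : ℤ) :
    ∃ D : V → ℤ, deg D = d ∧ cls N φ D = a := by
  have : NeZero N := ⟨c.pos.ne'⟩
  refine ⟨(a.val : ℤ) • chip u + (d - a.val) • chip q, ?_, ?_⟩
  · have e1 := deg_chip u
    have e2 := deg_chip q
    simp only [deg, Pi.add_apply, Pi.smul_apply, smul_eq_mul, Finset.sum_add_distrib,
      ← Finset.mul_sum] at e1 e2 ⊢
    rw [e1, e2]; ring
  · rw [cls_add, cls_smul, cls_smul, cls_chip, cls_chip, c.u1, c.q0]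
    push_cast
    rw [ZMod.natCast_zmod_val]
    ring

/-- computing gonalities -/
lemma Cert.gon_eq (c : Cert G N φ q u s t) (hl : ∀ x, x ∈ l ↔ ∃ v, φ v = x) (r d : ℕ)
    (h1 : rankMask N l d r ≠ 0) (h2 : ∀ d' < d, rankMask N l d' r = 0) :
    G.gon r = r + d := by
  have : NeZero N := ⟨c.pos.ne'⟩
  have : Nonempty V := ⟨q⟩
  -- a bit of the mask
  obtain ⟨i, hi⟩ := Nat.exists_testBit_of_ne_zero h1
  have hiN : i < N := by
    by_contra hcon
    have hlt : rankMask N l d r < 2 ^ i :=
      lt_of_lt_of_le (rankMask_lt N c.pos l d r) (Nat.pow_le_pow_right (by norm_num) (by omega))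
    rw [Nat.testBit_lt_two_pow hlt] at hi
    exact absurd hi (by simp)
  obtain ⟨D, hD, hc⟩ := c.exists_divisor ((i : ℕ) : ZMod N) ((r + d : ℕ) : ℤ)
  apply G.gon_eq r (r + d) D hD
  · rw [c.mem_rank l hl d r D (by rw [hD]; push_cast; ring), hc]
    unfold Mem
    rw [ZMod.val_natCast, Nat.mod_eq_of_lt hiN]
    exact hi
  · intro d' hd' D' hdeg hrk
    have h3 := hrk.le_deg
    rw [hdeg] at h3
    obtain ⟨e, he⟩ : ∃ e, d' = r + e := ⟨d' - r, by omega⟩
    rw [c.mem_rank l hl e r D' (by rw [hdeg, he]; push_cast; ring), h2 e (by omega)] at hrk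
    simp [Mem] at hrk

end

end Pool.Agent.Lib.MP_d208ff_co
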