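import Mathlib
import Pool.Agent.Lib.MP_d208ff_co.Defs
import Pool.Agent.Lib.MP_d208ff_co.Masks

/-!
The counterexample: a multigraph with 8 vertices and 15 edges, of genus 8, Jacobian of order 965,
with gonality sequence 5, 6, 8, 11, 12, 13, 14, 16, 17, 18, ...
-/

set_option autoImplicit false

namespace Pool.Agent.Lib.MP_d208ff_co

open Finset Multigraph

/-- edge multiplicities: `01` twice, `02`, `14`, `16`, `23` twice, `27`, `35`, `37`, `45` three
times, `56`, `67` -/
def multTable : Fin 8 → Fin 8 → ℕ :=
  ![![0, 2, 1, 0, 0, 0, 0, 0],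
    ![2, 0, 0, 0, 1, 0, 1, 0],
    ![1, 0, 0, 2, 0, 0, 0, 1],
    ![0, 0, 2, 0, 0, 1, 0, 1],
    ![0, 1, 0, 0, 0, 3, 0, 0],
    ![0, 0, 0, 1, 3, 0, 1, 0],
    ![0, 1, 0, 0, 0, 1, 0, 1],
    ![0, 0, 1, 1, 0, 0, 1, 0]]

/-- the counterexample graph -/
def exG : Multigraph (Fin 8) where
  mult := multTable
  symm := by decide
  loopless := by decide

def phi : Fin 8 → ℕ := ![0, 655, 620, 147, 689, 57, 1, 256]

def phiList : List ℕ := [0, 655, 620, 147, 689, 57, 1, 256]

def sTable : Fin 8 → Fin 8 → ℤ :=
  ![![0, 0, 0, 0, 0, 0, 0, 0],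
    ![0, -210, -234, -293, -318, -354, -523, -350],
    ![0, -199, -221, -277, -301, -335, -495, -331],
    ![0, -47, -52, -65, -71, -79, -117, -78],
    ![0, -221, -246, -308, -334, -372, -550, -368],
    ![0, -18, -20, -25, -27, -30, -45, -30],
    ![0, 0, 0, 0, 0, 0, 0, 0],
    ![0, -82, -91, -114, -124, -138, -204, -136]]

def tTable : Fin 8 → ℤ := ![0, 310, 345, 432, 469, 522, 771, 516]

lemma exCert : Cert exG 965 phi 0 6 sTable tTable where
  pos := by norm_num
  bound := by decide
  hom := by decide +kernel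
  q0 := rfl
  u1 := rfl
  qu := by decide
  gen := by decide +kernel
  tor := by decide +kernel

lemma exList : ∀ x, x ∈ phiList ↔ ∃ v, phi v = x := by
  intro x
  constructor
  · intro h
    simp only [phiList, List.mem_cons, List.not_mem_nil, or_false] at h
    rcases h with h | h | h | h | h | h | h | h
    · exact ⟨0, h.symm⟩
    · exact ⟨1, h.symm⟩
    · exact ⟨2, h.symm⟩
    · exact ⟨3, h.symm⟩
    · exact ⟨4, h.symm⟩
    · exact ⟨5, h.symm⟩
    · exact ⟨6, h.symm⟩
    · exact ⟨7, h.symm⟩
  · rintro ⟨v, rfl⟩
    revert v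
    decide

lemma exConnected : exG.Connected := by
  refine ⟨⟨0⟩, ?_⟩
  have hs : ∀ a b, exG.mult a b ≠ 0 → Relation.ReflTransGen (fun a b => exG.mult a b ≠ 0) a b :=
    fun a b h => Relation.ReflTransGen.single h
  have h01 := hs 0 1 (by decide)
  have h02 := hs 0 2 (by decide)
  have h14 := hs 1 4 (by decide)
  have h16 := hs 1 6 (by decide)
  have h23 := hs 2 3 (by decide)
  have h27 := hs 2 7 (by decide)
  have h35 := hs 3 5 (by decide)
  have h0 : ∀ v, Relation.ReflTransGen (fun a b => exG.mult a b ≠ 0) 0 v := by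
    intro v
    fin_cases v
    · exact Relation.ReflTransGen.refl
    · exact h01
    · exact h02
    · exact h02.trans h23
    · exact h01.trans h14
    · exact (h02.trans h23).trans h35
    · exact h01.trans h16
    · exact h02.trans h27
  have hsymm : ∀ u v, Relation.ReflTransGen (fun a b => exG.mult a b ≠ 0) u v →
      Relation.ReflTransGen (fun a b => exG.mult a b ≠ 0) v u := by
    intro u v h
    induction h with
    | refl => exact Relation.ReflTransGen.refl
    | tail _ hbc ih =>
      refine Relation.ReflTransGen.trans (Relation.ReflTransGen.single ?_) ih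
      rw [exG.symm]
      exact hbc
  intro u v
  exact (hsymm _ _ (h0 u)).trans (h0 v)

lemma exGenus : exG.genus = 8 := by
  have h : exG.numEdges = 15 := by decide +kernel
  unfold genus
  rw [h]
  simp

lemma gon1 : exG.gon 1 = 5 := by
  have h := exCert.gon_eq phiList exList 1 4 (by decide +kernel) (by decide +kernel)
  simpa using h

lemma gon2 : exG.gon 2 = 6 := by
  have h := exCert.gon_eq phiList exList 2 4 (by decide +kernel) (by decide +kernel)
  simpa using h

lemma gon3 : exG.gon 3 = 8 := by
  have h := exCert.gon_eq phiList exList 3 5 (by decide +kernel) (by decide +kernel)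
  simpa using h

lemma gon4 : exG.gon 4 = 11 := by
  have h := exCert.gon_eq phiList exList 4 7 (by decide +kernel) (by decide +kernel)
  simpa using h

lemma gon5 : exG.gon 5 = 12 := by
  have h := exCert.gon_eq phiList exList 5 7 (by decide +kernel) (by decide +kernel)
  simpa using h

lemma gon6 : exG.gon 6 = 13 := by
  have h := exCert.gon_eq phiList exList 6 7 (by decide +kernel) (by decide +kernel)
  simpa using h

lemma gon7 : exG.gon 7 = 14 := by
  have h := exCert.gon_eq phiList exList 7 7 (by decide +kernel) (by decide +kernel)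
  simpa using h

lemma rankMask_full (r : ℕ) : rankMask 965 phiList 8 r = 2 ^ 965 - 1 := by
  induction r with
  | zero => decide +kernel
  | succ r ih =>
    have h : rankMask 965 phiList 8 (r + 1) = andAll 965 (rankMask 965 phiList 8 r) phiList := rfl
    rw [h, ih]
    decide +kernel

lemma rankMask_empty (r : ℕ) : ∀ d' < 8, rankMask 965 phiList d' (8 + r) = 0 := by
  induction r with
  | zero => decide +kernel
  | succ r ih =>
    intro d' hd'
    have h : rankMask 965 phiList d' (8 + (r + 1))
        = andAll 965 (rankMask 965 phiList d' (8 + r)) phiList := rfl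
    rw [h, ih d' hd']
    decide +kernel

lemma gon_large (r : ℕ) (hr : 8 ≤ r) : exG.gon r = r + 8 := by
  obtain ⟨s, rfl⟩ : ∃ s, r = 8 + s := ⟨r - 8, by omega⟩
  refine exCert.gon_eq phiList exList (8 + s) 8 ?_ (rankMask_empty s)
  rw [rankMask_full]
  decide +kernel

end Pool.Agent.Lib.MP_d208ff_co
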